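import Pool.Agent.MP_ed9623_an.H77.SpecZ

/-! Classical derivatives of representatives. -/

open MeasureTheory Filter Topology Set
open scoped ContDiff

namespace Pool.Agent.MP_ed9623_an.H77

open H64

namespace Cl0

theorem int_ct {N : Set P} {a φ : P → ℝ} (ha : Continuous a) (hφ : Test N φ) :
    Integrable fun x => a x * φ x :=
  (ha.mul hφ.ct).integrable_of_hasCompactSupport hφ.2.1.mul_left

theorem eq_of {N : Set P} {a g : P → ℝ} (hN : IsOpen N) (ha : Continuous a) (hg : M2 g)
    (h : ∀ φ, Test N φ → ∫ x, a x * φ x = ∫ x, g x * φ x) : ∀ᵐ p, p ∈ N → a p = g p := by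
  have := van_of_int (f := fun p => a p - g p) hN (ha.locallyIntegrable.sub hg.loc)
    fun φ hφ => by
      simp only [sub_mul]
      rw [integral_sub (int_ct ha hφ) (hg.int_mul hφ.m2), h φ hφ, sub_self]
  exact Filter.Eventually.mono this fun p b hp => sub_eq_zero.1 (b hp)

theorem der_t {F : ST → ℝ} (hF : ContDiff ℝ (1 : ℕ) F) (s : ℝ) (x : P) :
    HasDerivAt (fun s => F (s, x)) (pd e0 F (s, x)) s := by
  have h1 : HasDerivAt (fun s : ℝ => ((s, x) : ST)) e0 s :=
    (hasDerivAt_id s).prodMk (hasDerivAt_const s x)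
  exact (cdg_diff hF le_rfl (s, x)).hasFDerivAt.comp_hasDerivAt s h1

theorem der_int {N : Set P} {F : ST → ℝ} {φ : P → ℝ} (hF : ContDiff ℝ (1 : ℕ) F) (hφ : Test N φ)
    (t : ℝ) : HasDerivAt (fun s => ∫ x, F (s, x) * φ x) (∫ x, pd e0 F (t, x) * φ x) t := by
  have c0 := hF.continuous
  have c1 := (contDiff_pd (n := 0) e0 hF).continuous
  obtain ⟨C, hC⟩ := ((isCompact_closedBall t 1).prod hφ.2.1).exists_bound_of_continuousOn
    c1.continuousOn
  refine (hasDerivAt_integral_of_dominated_loc_of_deriv_le (Metric.closedBall_mem_nhds t one_pos)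
    (F := fun s x => F (s, x) * φ x) (F' := fun s x => pd e0 F (s, x) * φ x)
    (bound := fun x => ‖C * φ x‖)
    (Eventually.of_forall fun s =>
      (int_ct (c0.comp (Continuous.prodMk_right s)) hφ).aestronglyMeasurable)
    (int_ct (c0.comp (Continuous.prodMk_right t)) hφ)
    (int_ct (c1.comp (Continuous.prodMk_right t)) hφ).aestronglyMeasurable
    (Eventually.of_forall fun x s hs => ?_) (int_ct continuous_const hφ).norm
    (Eventually.of_forall fun x s _ => (der_t hF s x).mul_const _)).2
  by_cases hx : x ∈ tsupport φ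
  · rw [norm_mul, norm_mul]
    exact mul_le_mul_of_nonneg_right ((hC (s, x) ⟨hs, hx⟩).trans (le_abs_self C)) (norm_nonneg _)
  · simp [image_eq_zero_of_notMem_tsupport hx]

end Cl0

open Cl0 in
theorem rowCl0 : OfCl0 := by
  intro N hN
  refine ⟨fun h hc H => ?_, fun f g g' e hf hg a w => ?_, fun F W t hF hW a => ?_⟩
  · exact Measure.eqOn_open_of_ae_eq (g := fun _ => 0) (μ := volume)
      ((ae_restrict_iff' hN.measurableSet).2 (van_of_int hN hc.locallyIntegrable H)) hN
      hc.continuousOn continuousOn_const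
  · refine eq_of hN (contDiff_pd (n := 0) e hf).continuous hg fun φ hφ => neg_injective ?_
    rw [← WD.of_cd hf N e φ hφ, ← w φ hφ]
    exact int_test_congr (fun _ => (hφ.pd e).off) a
  · refine eq_of hN ((contDiff_pd (n := 0) e0 hF).continuous.comp (Continuous.prodMk_right t))
      (M2.coe _) fun φ hφ => ?_
    obtain ⟨l, hl⟩ := exists_int hφ.m2
    have h1 : HasDerivAt (fun s => l (W s)) (l (deriv W t)) t :=
      l.hasFDerivAt.comp_hasDerivAt t (hW.differentiable (by simp) t).hasDerivAt
    rw [← hl]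
    refine (der_int hF hφ t).unique (h1.congr_of_eventuallyEq (a.mono fun s hs => ?_))
    exact (int_test_congr (fun _ => hφ.off) hs).trans (hl _).symm

end Pool.Agent.MP_ed9623_an.H77
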