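import Pool.Agent.MP_ed9623_an.H77.SpecW

/-! Tangential regularity for the stationary system. -/

open MeasureTheory Filter Topology Set
open scoped ContDiff

namespace Pool.Agent.MP_ed9623_an.H77

open H64

namespace L1

theorem amgm {x E τ S ε : ℝ} (hε : 0 < ε) (hτ : 0 ≤ τ) (hS : 0 ≤ S) (h : x ^ 2 ≤ E ^ 2 * (τ * S)) :
    x ≤ ε * S + E ^ 2 / ε * τ := by
  refine (abs_le_of_sq_le_sq' (h.trans ?_) (by positivity)).2
  have e : ε * (E ^ 2 / ε) = E ^ 2 := by field_simp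
  have h1 : 0 ≤ E ^ 2 * (τ * S) := by positivity
  have h2 : (ε * S + E ^ 2 / ε * τ) ^ 2 =
      (ε * S) ^ 2 + (E ^ 2 / ε * τ) ^ 2 + 2 * (ε * (E ^ 2 / ε) * (τ * S)) := by ring
  rw [h2, e]
  nlinarith [sq_nonneg (ε * S), sq_nonneg (E ^ 2 / ε * τ)]

theorem lad' (lad : LadS) {f fY g gS : P → ℝ} {a b c d : ℝ} (h1 : M2 f) (h2 : M2 fY) (h3 : M2 g)
    (h4 : M2 gS) (w1 : WD univ (ee 0) f fY) (w2 : WD univ (ee 1) g gS) (n1 : nm f ≤ a)
    (n2 : nm fY ≤ b) (n3 : nm g ≤ c) (n4 : nm gS ≤ d) :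
    M2 (fun p => f p * g p) ∧ nm (fun p => f p * g p) ^ 2 ≤ 16 * (a * b * (c * d)) := by
  obtain ⟨m, n⟩ := lad f fY g gS h1 h2 h3 h4 w1 w2
  refine ⟨m, n.trans ?_⟩
  have := nm_nonneg f
  have := nm_nonneg fY
  have := nm_nonneg g
  have := nm_nonneg gS
  have : 0 ≤ a := by linarith
  have : 0 ≤ b := by linarith
  have : 0 ≤ c := by linarith
  gcongr

theorem term {d w ρ ς χ : P → ℝ} {ϑ : ℝ} (h : ℝ) (hd : M2 d) (hw : M2 w) (hρ : M2 ρ) (hς : M2 ς)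
    (hχ : Test univ χ) (hϑ : |ϑ| ≤ 1) :
    nm (fun p => χ p * dl h d p) ^ 2 - nm (fun p => χ p * dl h d p) * nm ρ -
      nm (fun p => χ p * dl h w p) * (nm (fun p => χ p * dl h d p) + nm ρ) -
      (nm d + nm w) * nm ς ≤
    ∫ p, (d p - ϑ * w p) * (dl (-h) (fun p => χ p ^ 2 * dl h d p + χ p * ρ p) p + ς p) := by
  have hg : M2 fun p => d p - ϑ * w p := hd.sub (hw.cmul ϑ)
  have hA : M2 fun p => χ p * dl h d p := (hd.dl h).tmul hχ
  have hB : M2 fun p => χ p * dl h w p := (hw.dl h).tmul hχ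
  have hX : M2 fun p => χ p ^ 2 * dl h d p + χ p * ρ p :=
    ((hA.add hρ).tmul hχ).congr (Eventually.of_forall fun p => by ring)
  simp only [mul_add (d _ - ϑ * w _)]
  rw [integral_add (hg.int_mul (hX.dl _)) (hg.int_mul hς), int_mul_dl hg hX]
  have e : (fun p => dl h (fun p => d p - ϑ * w p) p * (χ p ^ 2 * dl h d p + χ p * ρ p)) =
      fun p => (χ p * dl h d p) ^ 2 + χ p * dl h d p * ρ p -
        ϑ * (χ p * dl h w p * (χ p * dl h d p + ρ p)) := by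
    funext p
    simp only [dl]
    ring
  have i1 : Integrable fun p => (χ p * dl h d p) ^ 2 + χ p * dl h d p * ρ p :=
    hA.int_sq.add (hA.int_mul hρ)
  rw [e, integral_sub i1 ((hB.int_mul (hA.add hρ)).const_mul ϑ),
    integral_add hA.int_sq (hA.int_mul hρ), integral_const_mul, ← nm_sq]
  have b1 := (abs_le.1 (abs_int_le hA hρ)).1
  have b2 : |ϑ * ∫ p, χ p * dl h w p * (χ p * dl h d p + ρ p)| ≤
      nm (fun p => χ p * dl h w p) * (nm (fun p => χ p * dl h d p) + nm ρ) := by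
    rw [abs_mul]
    refine (mul_le_of_le_one_left (abs_nonneg _) hϑ).trans ((abs_int_le hB (hA.add hρ)).trans ?_)
    exact mul_le_mul_of_nonneg_left (nm_add_le hA hρ) (nm_nonneg _)
  have b3 : |∫ p, (d p - ϑ * w p) * ς p| ≤ (nm d + nm w) * nm ς := by
    refine (abs_int_le hg hς).trans (mul_le_mul_of_nonneg_right ?_ (nm_nonneg _))
    refine (nm_sub_le hd (hw.cmul ϑ)).trans ?_
    rw [nm_cmul]
    have := mul_le_of_le_one_left (nm_nonneg w) hϑ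
    linarith
  have b4 := (abs_le.1 b2).2
  have b5 := (abs_le.1 b3).1
  linarith

/-- The products and their differences. -/
theorem prods (av : AvS) (lad : LadS) {γ : ℝ → ℝ} {χ : P → ℝ} {M R S h ε : ℝ} (hγ : Gam γ)
    (hχ : Test univ χ) (hM : 0 ≤ M) (m1 : ∀ y, |deriv γ y| ≤ M) (m2 : ∀ p, |χ p| ≤ M)
    (m3 : ∀ p, |pd (ee 1) χ p| ≤ M) (hε : 0 < ε) {u : Fin 2 → P → ℝ}
    {du : Fin 2 → Fin 2 → P → ℝ} (h1 : ∀ j, H1 γ (u j) (du j)) (nb : Nb R u du)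
    (hS : ∀ j, R * |h| + nm (fun p => χ p * dl h (du j 1) p) ≤ S) (i j : Fin 2) :
    M2 (fun p => u i p * u j p) ∧ nm (fun p => u i p * u j p) ≤ 4 * (1 + M) * R ^ 2 ∧
      nm (fun p => χ p * dl h (fun p => u i p * u j p) p) ≤
        2 * (ε * S + (4 * (1 + M) * (1 + M * (1 + M)) * R) ^ 2 / ε * (R * |h|)) := by
  have hR : 0 ≤ R := (nm_nonneg _).trans (nb 0).1
  have hτ : 0 ≤ R * |h| := by positivity
  have hS0 : R * |h| ≤ S := (le_add_of_nonneg_right (nm_nonneg _)).trans (hS 0)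
  have mY : ∀ j, M2 fun p => du j 0 p + deriv γ p.1 * du j 1 p := fun j =>
    ((h1 j).md 0).add (((h1 j).md 1).gmul hγ.deriv)
  have nY : ∀ j, nm (fun p => du j 0 p + deriv γ p.1 * du j 1 p) ≤ (1 + M) * R := fun j => by
    refine (nm_add_le ((h1 j).md 0) (((h1 j).md 1).gmul hγ.deriv)).trans ?_
    have a := nm_bmul (m := fun p => deriv γ p.1) ((h1 j).md 1) hM
      (Eventually.of_forall fun p => m1 p.1)
    have b := mul_le_mul_of_nonneg_left ((nb j).2 1) hM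
    have c := (nb j).2 0
    linarith
  have nd : ∀ j (m : P → ℝ), (∀ p, |m p| ≤ M) →
      nm (fun p => m p * dl h (u j) p) ≤ M * (1 + M) * (R * |h|) := fun j m hm => by
    refine (nm_bmul ((h1 j).m.dl h) hM (Eventually.of_forall hm)).trans ?_
    have a := ((av h (u j) (h1 j).m).2.2.2.1 _ (mY j) ((h1 j).wd0 hγ)).2
    have b := mul_le_mul_of_nonneg_left (nY j) (abs_nonneg h)
    have c := mul_le_mul_of_nonneg_left (a.trans b) hM
    linarith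
  have key : ∀ (f fY : P → ℝ) (j : Fin 2), M2 f → M2 fY → WD univ (ee 0) f fY → nm f ≤ R →
      nm fY ≤ (1 + M) * R → M2 (fun p => f p * (χ p * dl h (u j) p)) ∧
        nm (fun p => f p * (χ p * dl h (u j) p)) ≤
          ε * S + (4 * (1 + M) * (1 + M * (1 + M)) * R) ^ 2 / ε * (R * |h|) := by
    intro f fY j a1 a2 a3 a4 a5
    have b1 := ((h1 j).m.dl h).tmul hχ
    have b2 := (((h1 j).md 1).dl h).tmul hχ
    have b3 := ((h1 j).m.dl h).tmul (hχ.pd (ee 1))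
    have k0 : 0 ≤ M * (1 + M) := by positivity
    have b4 : nm (fun p => χ p * dl h (u j) p) ≤ (1 + M * (1 + M)) * (R * |h|) := by
      have := nd j χ m2
      linarith
    have b5 : nm (fun p => χ p * dl h (du j 1) p + pd (ee 1) χ p * dl h (u j) p) ≤
        (1 + M * (1 + M)) * S := by
      have c1 := nm_add_le b2 b3
      have c2 := nd j _ m3
      have c3 := hS j
      have c4 := mul_le_mul_of_nonneg_left hS0 k0
      linarith
    obtain ⟨c1, c2⟩ := lad' lad a1 a2 b1 (b2.add b3) a3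
      (((h1 j).wd1.dl (h1 j).m ((h1 j).md 1) h).cut ((h1 j).m.dl h) (((h1 j).md 1).dl h) hχ)
      a4 a5 b4 b5
    refine ⟨c1, amgm hε hτ (hτ.trans hS0) (c2.trans ?_)⟩
    have c3 : 0 ≤ 16 * ((1 + M * (1 + M)) * R) ^ 2 * (R * |h| * S) := by
      have := hτ.trans hS0
      positivity
    have c4 : 1 + M ≤ (1 + M) ^ 2 := by nlinarith
    have c5 := mul_le_mul_of_nonneg_left c4 c3
    linarith
  obtain ⟨p1, p2⟩ := lad' lad (h1 i).m (mY i) (h1 j).m ((h1 j).md 1) ((h1 i).wd0 hγ) (h1 j).wd1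
    (nb i).1 (nY i) (nb j).1 ((nb j).2 1)
  refine ⟨p1, (abs_le_of_sq_le_sq' (p2.trans ?_) (by positivity)).2, ?_⟩
  · have c4 : 1 + M ≤ (1 + M) ^ 2 := by nlinarith
    have c5 := mul_le_mul_of_nonneg_left c4 (show 0 ≤ 16 * R ^ 4 by positivity)
    linarith
  · obtain ⟨q1, q2⟩ := key _ _ j ((h1 i).m.sh h) ((mY i).sh h) (((h1 i).wd0 hγ).sh h)
      (by rw [nm_sh]; exact (nb i).1) (by rw [nm_sh]; exact nY i)
    obtain ⟨q3, q4⟩ := key _ _ i (h1 j).m (mY j) ((h1 j).wd0 hγ) (nb j).1 (nY j)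
    have e : (fun p => χ p * dl h (fun p => u i p * u j p) p) = fun p =>
        sh h (u i) p * (χ p * dl h (u j) p) + u j p * (χ p * dl h (u i) p) := by
      funext p
      simp only [dl, sh]
      ring
    rw [e]
    have := nm_add_le q1 q3
    linarith

theorem arith {N τ t R D : ℝ} (hN : 0 ≤ N) (ht : 0 ≤ t) (hR : 0 ≤ R) (hD : 0 ≤ D) (hτ : τ = R * t)
    (h : N ^ 2 ≤ (τ + N) ^ 2 / 4 + D * (t * (τ + N))) : N ≤ 2 * (2 * R + D) * t := by
  have h0 : 0 ≤ τ := by rw [hτ]; positivity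
  by_contra c
  rw [not_le] at c
  have h1 : 0 ≤ R * t := by positivity
  have h2 : 0 ≤ D * t := by positivity
  have h3 : 0 < τ + N := by nlinarith
  have h4 : (τ + N) * (3 / 4 * (τ + N) - 2 * τ - D * t) ≤ 0 := by nlinarith [sq_nonneg τ]
  have h5 : 0 < 3 / 4 * (τ + N) - 2 * τ - D * t := by nlinarith
  exact absurd h4 (not_le.2 (mul_pos h3 h5))

theorem one {a n b g s C R t S ε E G : ℝ} (ha : 0 ≤ a) (hn : 0 ≤ n) (hb : 0 ≤ b) (hs : 0 ≤ s)
    (hC : 0 ≤ C) (hτ : 0 ≤ R * t) (hG : 0 ≤ G) (aS : R * t + a ≤ S) (h1 : n ≤ C * (R * t))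
    (h2 : b ≤ 2 * (ε * S + E * (R * t))) (h3 : g ≤ G) (h4 : s ≤ C * (t * S)) :
    a * n + b * (a + n) + g * s ≤ 2 * ε * (1 + C) * S ^ 2 +
      (C * R + 2 * E * R * (1 + C) + G * C) * (t * S) := by
  have hS : 0 ≤ S := by linarith
  have k1 : a * n ≤ S * (C * (R * t)) := mul_le_mul (by linarith) h1 hn hS
  have k2 : a + n ≤ (1 + C) * S := by
    have := mul_le_mul_of_nonneg_left (show R * t ≤ S by linarith) hC
    linarith
  have k3 : b * (a + n) ≤ 2 * (ε * S + E * (R * t)) * ((1 + C) * S) :=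
    mul_le_mul h2 k2 (by positivity) (hb.trans h2)
  have k4 : g * s ≤ G * (C * (t * S)) := mul_le_mul h3 h4 hs hG
  linarith

end L1

open L1 in
theorem rowL1 : OfL1 := by
  intro av lad dqd l1b γ σ r r' R hγ hσ h0 hr
  by_cases hR : 0 ≤ R
  swap
  · exact ⟨0, le_rfl, fun ϑ u du f _ h => absurd ((nm_nonneg _).trans (h.nb 0).1) hR⟩
  obtain ⟨χ, hχ, χ1, C, h₀, hC, hh, H⟩ := l1b γ σ r r' hγ hσ h0 hr
  obtain ⟨M1, a1, b1⟩ := hγ.deriv.bd
  obtain ⟨M2', a2, b2⟩ := hχ.bd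
  obtain ⟨M3, a3, b3⟩ := (hχ.pd (ee 1)).bd
  obtain ⟨M, hM⟩ : ∃ M, M = M1 + M2' + M3 := ⟨_, rfl⟩
  have M0 : 0 ≤ M := by linarith
  obtain ⟨ε, hε⟩ : ∃ ε : ℝ, ε = 1 / (128 * (1 + C)) := ⟨_, rfl⟩
  have ε0 : 0 < ε := by rw [hε]; positivity
  have ε1 : 2 * ε * (1 + C) = 1 / 64 := by rw [hε]; field_simp; norm_num
  obtain ⟨E, hE⟩ : ∃ E, E = (4 * (1 + M) * (1 + M * (1 + M)) * R) ^ 2 / ε := ⟨_, rfl⟩
  have E0 : 0 ≤ E := by rw [hE]; positivity
  obtain ⟨G, hG⟩ : ∃ G, G = R + 4 * (1 + M) * R ^ 2 := ⟨_, rfl⟩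
  have G0 : 0 ≤ G := by rw [hG]; positivity
  obtain ⟨D, hD⟩ : ∃ D, D = C * R + 2 * E * R * (1 + C) + G * C := ⟨_, rfl⟩
  have D0 : 0 ≤ D := by rw [hD]; positivity
  refine ⟨2 * (2 * R + (16 * D + 8 * (R * C))), by positivity, fun ϑ u du f hϑ hP j i => ?_⟩
  refine dqd _ χ _ _ ((hP.vf.h1 j).md i) hχ χ1 (by positivity) ?_
  have ev : ∀ᶠ h in 𝓝 (0 : ℝ), |h| ≤ h₀ := by
    filter_upwards [Metric.closedBall_mem_nhds (0 : ℝ) hh] with h a
    simpa using a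
  filter_upwards [ev.filter_mono nhdsWithin_le_nhds] with h hle
  obtain ⟨ζ, ρ, ς, z1, z2, z3⟩ := H ϑ R h u du f hP hle
  obtain ⟨a, ha⟩ : ∃ a : Fin 2 → Fin 2 → ℝ, ∀ m l, a m l = nm fun p => χ p * dl h (du m l) p :=
    ⟨_, fun _ _ => rfl⟩
  have a0 : ∀ m l, 0 ≤ a m l := fun m l => by rw [ha]; exact nm_nonneg _
  simp only [← ha] at z1 z2 ⊢
  obtain ⟨N, hN⟩ : ∃ N, N = ∑ m, ∑ l, a m l := ⟨_, rfl⟩
  have aN : ∀ m l, a m l ≤ N := fun m l => by
    rw [hN]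
    exact (Finset.single_le_sum (fun l _ => a0 m l) (Finset.mem_univ l)).trans
      (Finset.single_le_sum (f := fun m => ∑ l, a m l)
        (fun m _ => Finset.sum_nonneg fun l _ => a0 m l) (Finset.mem_univ m))
  have N0 : 0 ≤ N := (a0 0 0).trans (aN 0 0)
  rw [← hN] at z1 z2
  have τ0 : 0 ≤ R * |h| := by positivity
  have T : ∀ m l, a m l ^ 2 - (1 / 64 * (R * |h| + N) ^ 2 + D * (|h| * (R * |h| + N))) ≤
      ∫ p, (du m l p - ϑ * (u l p * u m p)) * (dl (-h)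
        (fun p => χ p ^ 2 * dl h (du m l) p + χ p * ρ m l p) p + ς m l p) := fun m l => by
    obtain ⟨p1, p2, p3⟩ := prods av lad (M := M) (S := R * |h| + N) (h := h) hγ hχ M0
      (fun y => (b1 y).trans (by linarith)) (fun p => (b2 p).trans (by linarith))
      (fun p => (b3 p).trans (by linarith)) ε0 hP.vf.h1 hP.nb
      (fun k => by rw [← ha]; linarith [aN k 1]) l m
    obtain ⟨q1, q2, q3, q4⟩ := z2 m l
    refine le_trans ?_ (term h ((hP.vf.h1 m).md l) p1 q1 q2 hχ hϑ)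
    rw [← hE] at p3
    have := one (g := nm (du m l) + nm fun p => u l p * u m p) (a0 m l) (nm_nonneg _)
      (nm_nonneg _) (nm_nonneg _) hC τ0 G0 (by linarith [aN m l]) q3 p3
      (by linarith [(hP.nb m).2 l]) q4
    rw [ε1, ← hD] at this
    rw [← ha]
    linarith
  have F : ∀ m, ∫ x, f m x * ζ m x ≤ R * (C * (|h| * (R * |h| + N))) := fun m =>
    (le_abs_self _).trans ((abs_int_le (hP.mf m).1 (z1 m).1).trans
      (mul_le_mul (hP.mf m).2 (z1 m).2 (nm_nonneg _) hR))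
  refine (aN j i).trans (arith N0 (abs_nonneg h) hR (by positivity) rfl ?_)
  have N1 : N ^ 2 ≤ 4 * (a 0 0 ^ 2 + a 0 1 ^ 2 + a 1 0 ^ 2 + a 1 1 ^ 2) := by
    rw [hN]
    simp only [Fin.sum_univ_two]
    nlinarith [sq_nonneg (a 0 0 - a 0 1), sq_nonneg (a 0 0 - a 1 0), sq_nonneg (a 0 0 - a 1 1),
      sq_nonneg (a 0 1 - a 1 0), sq_nonneg (a 0 1 - a 1 1), sq_nonneg (a 1 0 - a 1 1)]
  simp only [ip, Fin.sum_univ_two] at z3
  linarith [T 0 0, T 0 1, T 1 0, T 1 1, F 0, F 1]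

end Pool.Agent.MP_ed9623_an.H77
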